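import Pool.Agent.H30.Ind
import Pool.Agent.H30.Sin

set_option autoImplicit false

namespace Pool.Agent.Results.MP_b0a983_gt.ThickSin

open Set Filter Topology Real Pool.Agent.H30 Pool.Agent.H30.Sin

/-- `ind_x X ≤ n`. -/
def LocIndLE {X : Type} [TopologicalSpace X] (x : X) (n : ℕ) : Prop :=
  ∀ W ∈ nhds x, ∃ U : Set X, IsOpen U ∧ x ∈ U ∧ U ⊆ W ∧
    HasSmallInductiveDimensionLT (frontier U) n

def Z : Set (ℝ × ℝ) :=
  {p | p.1 ∈ Icc 0 1 ∧ |p.2| ≤ 1 + p.1 ∧ (0 < p.1 → |p.2 - sin p.1⁻¹| ≤ p.1)}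

lemma isCompact_Z : IsCompact Z := by
  have h1 : IsOpen ({p : ℝ × ℝ | 0 < p.1} ∩
      (fun p : ℝ × ℝ => |p.2 - sin p.1⁻¹| - p.1) ⁻¹' Ioi 0) := by
    refine ContinuousOn.isOpen_inter_preimage ?_ (isOpen_lt continuous_const continuous_fst)
      isOpen_Ioi
    intro p hp
    exact ((continuousAt_snd.sub (continuous_sin.continuousAt.comp
      (continuousAt_fst.inv₀ (ne_of_gt hp)))).abs.sub continuousAt_fst).continuousWithinAt
  have h2 := (((isCompact_Icc (a := (0:ℝ)) (b := 1)).prod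
    (isCompact_Icc (a := (-2:ℝ)) (b := 2))).inter_right h1.isClosed_compl).inter_right
    (isClosed_le (f := fun p : ℝ × ℝ => |p.2|) (g := fun p => 1 + p.1) (by fun_prop) (by fun_prop))
  convert h2 using 1
  ext p
  simp only [Z, mem_ofPred_eq, mem_inter_iff, mem_prod, mem_compl_iff, mem_preimage,
    mem_Ioi, not_and, sub_pos, not_lt, mem_Icc]
  refine ⟨fun ⟨h1, h2, h3⟩ => ⟨⟨⟨h1, abs_le.1 (by linarith [h1.2])⟩, h3⟩, h2⟩,
    fun ⟨⟨⟨h1, _⟩, h3⟩, h2⟩ => ⟨h1, h2, h3⟩⟩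

noncomputable def ψ (p : ℝ × ℝ) : ℝ × ℝ := (p.1, sin p.1⁻¹ + p.2 * p.1)

lemma ψ_cont {p : ℝ × ℝ} (h : p.1 ≠ 0) : ContinuousAt ψ p :=
  continuousAt_fst.prodMk ((continuous_sin.continuousAt.comp (continuousAt_fst.inv₀ h)).add
    (continuousAt_snd.mul continuousAt_fst))

lemma ψ_mem {p : ℝ × ℝ} (h : p ∈ Ioc (0:ℝ) 1 ×ˢ Icc (-1:ℝ) 1) : ψ p ∈ Z := by
  have h1 : |p.2 * p.1| ≤ p.1 := by
    rw [abs_mul, abs_of_pos h.1.1]
    exact mul_le_of_le_one_left h.1.1.le (abs_le.2 h.2)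
  refine ⟨⟨h.1.1.le, h.1.2⟩, (abs_add_le _ _).trans (add_le_add (abs_sin_le_one _) h1), fun _ => ?_⟩
  simpa [ψ] using h1

lemma dense_Z {p : ℝ × ℝ} (hp : p ∈ Z) : p ∈ closure (ψ '' Ioc (0:ℝ) 1 ×ˢ Icc (-1:ℝ) 1) := by
  rcases hp.1.1.eq_or_lt with h | h
  · refine closure_mono ?_ (mem_clos le_rfl one_pos
      ⟨hp.1, abs_le.1 (by simpa [← h] using hp.2.1), fun h' => absurd h h'.ne⟩ hp.1.1 hp.1.2)
    rintro _ ⟨x, hx, rfl⟩
    exact ⟨(x, 0), ⟨⟨hx.1, hx.2.le⟩, by norm_num⟩, by simp [ψ, gr]⟩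
  · refine subset_closure ⟨(p.1, (p.2 - sin p.1⁻¹) / p.1), ⟨⟨h, hp.1.2⟩, abs_le.1 ?_⟩,
      Prod.ext rfl ?_⟩
    · rw [abs_div, abs_of_pos h]
      exact (div_le_one h).2 (hp.2.2 h)
    · simp [ψ, div_mul_cancel₀ _ h.ne']

lemma isConnected_Z : IsConnected Z := by
  refine ⟨⟨(0, 0), by simp [Z]⟩, ((isPreconnected_Ioc.prod isPreconnected_Icc).image ψ
    fun p hp => (ψ_cont hp.1.1.ne').continuousWithinAt).subset_closure ?_ fun p hp => dense_Z hp⟩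
  rintro _ ⟨p, hp, rfl⟩
  exact ψ_mem hp

lemma not_one (x : Z) : ¬ LocIndLE x 1 := by
  intro H
  have : CompactSpace Z := isCompact_iff_compactSpace.1 isCompact_Z
  have c1 : Continuous fun p : Z => p.1.1 := by fun_prop
  obtain ⟨y₁, hy₁, hy⟩ : ∃ y ∈ Ioc (0:ℝ) 1, 1 / 4 < dist y x.1.1 := by
    rcases le_total x.1.1 (2 / 3) with h | h
    · exact ⟨1, by norm_num, lt_abs.2 (Or.inl (by linarith))⟩
    · exact ⟨1 / 3, by norm_num, lt_abs.2 (Or.inr (by linarith))⟩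
  obtain ⟨U, hU, hx, hW, h⟩ := H _ (c1.continuousAt (Metric.closedBall_mem_nhds _
    (show (0:ℝ) < 1 / 4 by norm_num)))
  have hW' := closure_minimal hW (Metric.isClosed_closedBall.preimage c1)
  obtain ⟨O, hO, rfl⟩ := isOpen_induced_iff.1 hU
  obtain ⟨_, h1, ⟨y₀, v₀⟩, h2, rfl⟩ := mem_closure_iff.1 (dense_Z x.2) O hO hx
  have h3 : ContinuousAt (fun v => ψ (y₀, v)) v₀ := (ψ_cont h2.1.1.ne').comp (by fun_prop)
  obtain ⟨v₁, hv, hne, hO'⟩ : ∃ v₁ ∈ Icc (-1:ℝ) 1, v₀ ≠ v₁ ∧ ∀ v ∈ uIcc v₀ v₁, ψ (y₀, v) ∈ O := by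
    obtain ⟨ε, hε, h4⟩ := Metric.mem_nhds_iff.1 (h3 (hO.mem_nhds h1))
    have h5 := (h2.2 : v₀ ∈ Icc (-1:ℝ) 1)
    have h6 : 0 < min ε 1 := lt_min hε one_pos
    have h7 := min_le_left ε 1
    have h8 := min_le_right ε 1
    rcases le_total v₀ 0 with h9 | h9
    · refine ⟨v₀ + min ε 1 / 2, ⟨by linarith [h5.1], by linarith⟩, by linarith, fun v hv => h4 ?_⟩
      rw [uIcc_of_le (by linarith)] at hv
      rw [Real.ball_eq_Ioo]
      exact ⟨by linarith [hv.1], by linarith [hv.2]⟩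
    · refine ⟨v₀ - min ε 1 / 2, ⟨by linarith, by linarith [h5.2]⟩, by linarith, fun v hv => h4 ?_⟩
      rw [uIcc_of_ge (by linarith)] at hv
      rw [Real.ball_eq_Ioo]
      exact ⟨by linarith [hv.1], by linarith [hv.2]⟩
  let g : unitInterval × unitInterval → ℝ × ℝ := fun p =>
    (AffineMap.lineMap y₀ y₁ (p.1 : ℝ), AffineMap.lineMap v₀ v₁ (p.2 : ℝ))
  have hg : Continuous g := by
    simp only [g, AffineMap.lineMap_apply_ring]
    fun_prop
  have hg' : ∀ p, g p ∈ Ioc (0:ℝ) 1 ×ˢ Icc (-1:ℝ) 1 := fun p =>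
    ⟨(convex_Ioc _ _).lineMap_mem h2.1 hy₁ p.1.2, (convex_Icc _ _).lineMap_mem h2.2 hv p.2.2⟩
  refine not_ind_one hU (φ := fun p => ⟨ψ (g p), ψ_mem (hg' p)⟩)
    (Continuous.subtype_mk (continuous_iff_continuousAt.2 fun p =>
      (ψ_cont (hg' p).1.1.ne').comp hg.continuousAt) _) (fun v => ?_) (fun v h => ?_)
    (fun u u' e => ?_) h
  · simpa [g] using hO' _ ((convex_uIcc _ _).lineMap_mem left_mem_uIcc right_mem_uIcc v.2)
  · have := hW' h
    simp only [g, ψ, mem_preimage, Metric.mem_closedBall, Icc.coe_one,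
      AffineMap.lineMap_apply_one] at this
    exact hy.not_ge this
  · have e1 : (g (u, 0)).1 = (g (u', 1)).1 := congrArg (fun p : Z => p.1.1) e
    have e2 : sin (g (u, 0)).1⁻¹ + (g (u, 0)).2 * (g (u, 0)).1 =
      sin (g (u', 1)).1⁻¹ + (g (u', 1)).2 * (g (u', 1)).1 := congrArg (fun p : Z => p.1.2) e
    rw [e1, add_right_inj, mul_left_inj' (hg' _).1.1.ne'] at e2
    exact hne (by simpa [g] using e2)

/-- There are a continuum which is 2-dimensional at each point and a map of it onto `[0,1]` such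
that no closed totally disconnected set is mapped onto `[0,1]`. -/
theorem result :
    ∃ (X : Type) (_ : MetricSpace X), CompactSpace X ∧ ConnectedSpace X ∧
      (∀ x : X, LocIndLE x 2 ∧ ¬ LocIndLE x 1) ∧
      ∃ f : X → unitInterval, Continuous f ∧ Function.Surjective f ∧
        ∀ K : Set X, IsClosed K → f '' K = Set.univ → ¬ IsTotallyDisconnected K := by
  refine ⟨Z, inferInstance, isCompact_iff_compactSpace.1 isCompact_Z,
    isConnected_iff_connectedSpace.1 isConnected_Z, fun x => ⟨ind_plane x, not_one x⟩,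
    fun p => ⟨p.1.1, p.2.1⟩, by fun_prop, fun y => ?_, fun K hK hs hd => ?_⟩
  · rcases y.2.1.eq_or_lt with h | h
    · exact ⟨⟨(0, 0), by simp [Z]⟩, Subtype.ext h⟩
    · exact ⟨⟨_, ψ_mem (p := (y, 0)) ⟨⟨h, y.2.2⟩, by norm_num⟩⟩, rfl⟩
  · let b : Icc (-1:ℝ) 1 → Z := fun s => ⟨(0, s), by simp, by simpa using abs_le.2 s.2, by simp⟩
    have hb : Continuous b := by fun_prop
    have := isPreconnected_iff_preconnectedSpace.1 (isPreconnected_Icc (a := (-1:ℝ)) (b := 1))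
    have h1 := hd (range b) (by
      rintro _ ⟨s, rfl⟩
      rw [← hK.closure_eq]
      refine Metric.mem_closure_iff.2 fun ε hε => ?_
      obtain ⟨y, hy, e⟩ := exists_small s.2 (lt_min hε one_pos)
      obtain ⟨p, hp, e'⟩ := hs.ge (mem_univ ⟨y, hy.1.le, hy.2.le.trans (min_le_right _ _)⟩)
      have e1 : p.1.1 = y := congrArg Subtype.val e'
      have e2 := p.2.2.2 (e1 ▸ hy.1)
      have e3 := hy.2.trans_le (min_le_left _ _)
      refine ⟨p, hp, max_lt ?_ ?_⟩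
      · show |0 - p.1.1| < ε
        rwa [zero_sub, abs_neg, e1, abs_of_pos hy.1]
      · show |s - p.1.2| < ε
        rw [e1, e] at e2
        rw [abs_sub_comm]
        exact e2.trans_lt e3) (isPreconnected_range hb)
      ⟨⟨1, by norm_num⟩, rfl⟩ ⟨⟨0, by norm_num⟩, rfl⟩
    simpa [b] using congrArg (fun p : Z => p.1.2) h1

end Pool.Agent.Results.MP_b0a983_gt.ThickSin
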